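import Mathlib

/-!
# MP_83f734_co : relaxation complexity of the 5-simplex over real quadratic fields

For every subfield `F ⊆ ℝ` containing an irrational number (in particular for every real
quadratic field) the vertex set `Δ₅` of the standard 5-simplex has relaxation complexity exactly
`5` over `F`.

Upper bound: let `q ∈ F` be irrational with `0 < q < 1/100`.  The five inequalities
`|f(z)| ≤ h ≤ β₁(z), β₂(z), β₃(z)` in `ℝ³ × ℝ` describe a 4-simplex over a triangular bipyramid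
whose only lattice points are the six points `e_i`, `(1,1,1) - e_i`, one in each facet.  Pulling
back along an affine map `ℤ⁵ → ℤ³ × F` whose kernel direction is irrational gives the relaxation.

Lower bound: four inequalities never suffice, over `ℝ`.
-/

namespace Pool.Agent.Results.MP_83f734_co.QuadraticSimplex

/-- The polyhedron `{x | A x ≤ b}`. -/
def Poly {m d : ℕ} (A : Matrix (Fin m) (Fin d) ℝ) (b : Fin m → ℝ) : Set (Fin d → ℝ) :=
  {x | ∀ i, ∑ j, A i j * x j ≤ b i}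

/-- `Q` is a relaxation of `X`: the integer points of `Q` are exactly those of `X`. -/
def IsRelaxation {d : ℕ} (Q : Set (Fin d → ℝ)) (X : Set (Fin d → ℤ)) : Prop :=
  ∀ x : Fin d → ℤ, (fun j => (x j : ℝ)) ∈ Q ↔ x ∈ X

/-- `Δ_d`: the zero vector together with the `d` standard unit vectors. -/
def Simplex (d : ℕ) : Set (Fin d → ℤ) := {x | x = 0 ∨ ∃ i, x = Pi.single i 1}

/-- Relaxation complexity of `X` over the field `F`: the least number of inequalities with
coefficients in `F` describing a relaxation of `X`. -/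
noncomputable def rc {d : ℕ} (F : Subfield ℝ) (X : Set (Fin d → ℤ)) : ℕ :=
  sInf {m | ∃ (A : Matrix (Fin m) (Fin d) ℝ) (b : Fin m → ℝ),
    (∀ i j, A i j ∈ F) ∧ (∀ i, b i ∈ F) ∧ IsRelaxation (Poly A b) X}

/-! ### Upper bound -/
lemma bnd {q : ℝ} (hq0 : 0 < q) (hq1 : q < 1 / 100) (z : ℝ) :
    (0 ≤ z ∧ 0 ≤ q * z ∧ q * z ≤ z / 100) ∨ (z ≤ 0 ∧ q * z ≤ 0 ∧ z / 100 ≤ q * z) := by
  rcases le_total 0 z with h | h
  · left; refine ⟨h, by positivity, ?_⟩; nlinarith
  · right; refine ⟨h, by nlinarith, ?_⟩; nlinarith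

lemma box {q : ℝ} (hq0 : 0 < q) (hq1 : q < 1 / 100) (z1 z2 z3 : ℝ)
    (g13 : (1 - q) * z1 + (1 + 1/100 - q) * z2 + (1 + 1/100) * z3 - (3/2 + 1/100 - q) ≤
      1/2 + 1/100 * z3 + 3/4 * (z1 - z2 + 1))
    (g14 : (1 - q) * z1 + (1 + 1/100 - q) * z2 + (1 + 1/100) * z3 - (3/2 + 1/100 - q) ≤
      1/2 + q * (z1 - 1) + 3/4 * (z2 - z3 + 1))
    (g15 : (1 - q) * z1 + (1 + 1/100 - q) * z2 + (1 + 1/100) * z3 - (3/2 + 1/100 - q) ≤
      1/2 + 1/100 - (1/100 + q) * z2 + 3/4 * (z3 - z1 + 1))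
    (g23 : -((1 - q) * z1 + (1 + 1/100 - q) * z2 + (1 + 1/100) * z3 - (3/2 + 1/100 - q)) ≤
      1/2 + 1/100 * z3 + 3/4 * (z1 - z2 + 1))
    (g24 : -((1 - q) * z1 + (1 + 1/100 - q) * z2 + (1 + 1/100) * z3 - (3/2 + 1/100 - q)) ≤
      1/2 + q * (z1 - 1) + 3/4 * (z2 - z3 + 1))
    (g25 : -((1 - q) * z1 + (1 + 1/100 - q) * z2 + (1 + 1/100) * z3 - (3/2 + 1/100 - q)) ≤
      1/2 + 1/100 - (1/100 + q) * z2 + 3/4 * (z3 - z1 + 1)) :
    (-2 < z1 ∧ z1 < 3) ∧ (-2 < z2 ∧ z2 < 3) ∧ (-2 < z3 ∧ z3 < 3) := by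
  rcases bnd hq0 hq1 z1 with ⟨a1, a2, a3⟩ | ⟨a1, a2, a3⟩ <;>
  rcases bnd hq0 hq1 z2 with ⟨b1, b2, b3⟩ | ⟨b1, b2, b3⟩ <;>
  rcases bnd hq0 hq1 z3 with ⟨c1, c2, c3⟩ | ⟨c1, c2, c3⟩ <;>
  refine ⟨⟨?_, ?_⟩, ⟨?_, ?_⟩, ⟨?_, ?_⟩⟩ <;> by_contra hcon <;> push Not at hcon <;> linarith


/-- The lattice points below the roof: exactly six, each with a unique height. -/
lemma six {q : ℝ} (hq0 : 0 < q) (hq1 : q < 1 / 100) (z1 z2 z3 : ℤ) (h : ℝ)
    (g1 : (1 - q) * z1 + (1 + 1/100 - q) * z2 + (1 + 1/100) * z3 - (3/2 + 1/100 - q) ≤ h)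
    (g2 : -((1 - q) * z1 + (1 + 1/100 - q) * z2 + (1 + 1/100) * z3 - (3/2 + 1/100 - q)) ≤ h)
    (g3 : h ≤ 1/2 + 1/100 * z3 + 3/4 * (z1 - z2 + 1))
    (g4 : h ≤ 1/2 + q * (z1 - 1) + 3/4 * (z2 - z3 + 1))
    (g5 : h ≤ 1/2 + 1/100 - (1/100 + q) * z2 + 3/4 * (z3 - z1 + 1)) :
    (z1 = 1 ∧ z2 = 0 ∧ z3 = 0 ∧ h = 1/2 + 1/100) ∨ (z1 = 0 ∧ z2 = 1 ∧ z3 = 0 ∧ h = 1/2) ∨
    (z1 = 0 ∧ z2 = 0 ∧ z3 = 1 ∧ h = 1/2 - q) ∨ (z1 = 0 ∧ z2 = 1 ∧ z3 = 1 ∧ h = 1/2 + 1/100) ∨
    (z1 = 1 ∧ z2 = 0 ∧ z3 = 1 ∧ h = 1/2) ∨ (z1 = 1 ∧ z2 = 1 ∧ z3 = 0 ∧ h = 1/2 - q) := by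
  obtain ⟨⟨h1, h2⟩, ⟨h3, h4⟩, ⟨h5, h6⟩⟩ := box hq0 hq1 z1 z2 z3 (g1.trans g3) (g1.trans g4)
    (g1.trans g5) (g2.trans g3) (g2.trans g4) (g2.trans g5)
  have k1 : -2 < z1 := by exact_mod_cast h1
  have k2 : z1 < 3 := by exact_mod_cast h2
  have k3 : -2 < z2 := by exact_mod_cast h3
  have k4 : z2 < 3 := by exact_mod_cast h4
  have k5 : -2 < z3 := by exact_mod_cast h5
  have k6 : z3 < 3 := by exact_mod_cast h6
  clear h1 h2 h3 h4 h5 h6
  interval_cases z1 <;> interval_cases z2 <;> interval_cases z3 <;>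
    simp only [Int.cast_neg, Int.cast_one, Int.cast_zero, Int.cast_ofNat] at g1 g2 g3 g4 g5 <;>
    first
    | (exfalso; linarith)
    | (left; refine ⟨rfl, rfl, rfl, ?_⟩; apply le_antisymm <;> linarith)
    | (right; left; refine ⟨rfl, rfl, rfl, ?_⟩; apply le_antisymm <;> linarith)
    | (right; right; left; refine ⟨rfl, rfl, rfl, ?_⟩; apply le_antisymm <;> linarith)
    | (right; right; right; left; refine ⟨rfl, rfl, rfl, ?_⟩; apply le_antisymm <;> linarith)
    | (right; right; right; right; left; refine ⟨rfl, rfl, rfl, ?_⟩; apply le_antisymm <;> linarith)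
    | (right; right; right; right; right; refine ⟨rfl, rfl, rfl, ?_⟩; apply le_antisymm <;> linarith)


/-- Coefficients of the five inequalities, with `p = 1/100`. -/
noncomputable def MA (q : ℝ) : Matrix (Fin 5) (Fin 5) ℝ :=
  !![2/100, 2 * (1/100 + q), 1 + 2/100, 1 + 2/100, 1 + 2/100;
     0, 0, -(1 + 2/100), -1, -(1 - 2 * q);
     3/2 - 1/100, 3/4 - 2/100 - q, 3/2 - 1/100, -(2/100), 3/4 - 1/100 - q;
     q - 1/100 - 3/4, 3/4 - 1/100, q, 3/4 - 1/100, -(1/100 + q) - 3/4;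
     q - 3/4, -(1/100 + q) - 3/2, -(3/2 - 1/100 - q), -(1/100) - 3/4, 0]

/-- Right hand sides. -/
noncomputable def Mb : Fin 5 → ℝ := ![1 + 2/100, 0, 3/2 - 1/100, 3/4 - 1/100, 0]

lemma mem_MA (q : ℝ) (x : Fin 5 → ℝ) : x ∈ Poly (MA q) Mb ↔
    (2/100 * x 0 + 2 * (1/100 + q) * x 1 + (1 + 2/100) * x 2 + (1 + 2/100) * x 3 +
      (1 + 2/100) * x 4 ≤ 1 + 2/100) ∧
    (-(1 + 2/100) * x 2 + -1 * x 3 + -(1 - 2 * q) * x 4 ≤ 0) ∧
    ((3/2 - 1/100) * x 0 + (3/4 - 2/100 - q) * x 1 + (3/2 - 1/100) * x 2 + -(2/100) * x 3 +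
      (3/4 - 1/100 - q) * x 4 ≤ 3/2 - 1/100) ∧
    ((q - 1/100 - 3/4) * x 0 + (3/4 - 1/100) * x 1 + q * x 2 + (3/4 - 1/100) * x 3 +
      (-(1/100 + q) - 3/4) * x 4 ≤ 3/4 - 1/100) ∧
    ((q - 3/4) * x 0 + (-(1/100 + q) - 3/2) * x 1 + -(3/2 - 1/100 - q) * x 2 +
      (-(1/100) - 3/4) * x 3 ≤ 0) := by
  constructor
  · intro h
    have h0 := h 0
    have h1 := h 1
    have h2 := h 2
    have h3 := h 3
    have h4 := h 4
    simp [MA, Mb, Fin.sum_univ_succ] at h0 h1 h2 h3 h4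
    refine ⟨?_, ?_, ?_, ?_, ?_⟩ <;> linarith
  · rintro ⟨h0, h1, h2, h3, h4⟩ i
    fin_cases i <;> simp [MA, Mb, Fin.sum_univ_succ] <;> linarith


lemma irr {q : ℝ} (hq : Irrational q) (m n : ℤ) (h : (m : ℝ) / 100 + q * n = 0) :
    m = 0 ∧ n = 0 := by
  have hn : n = 0 := by
    by_contra hn
    have hn' : (n : ℝ) ≠ 0 := by exact_mod_cast hn
    apply hq
    refine ⟨-(m : ℚ) / (100 * n), ?_⟩
    push_cast
    field_simp
    linarith
  subst hn
  refine ⟨?_, rfl⟩
  have : (m : ℝ) = 0 := by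
    have h' := h
    simp at h'
    exact_mod_cast h'
  exact_mod_cast this

lemma simplex_mem (x : Fin 5 → ℤ) (i : Fin 5) (h : ∀ j, x j = if j = i then 1 else 0) :
    x ∈ Simplex 5 := by
  right
  refine ⟨i, ?_⟩
  funext j
  rw [h j, Pi.single_apply]

lemma relax {q : ℝ} (hq : Irrational q) (hq0 : 0 < q) (hq1 : q < 1 / 100) :
    IsRelaxation (Poly (MA q) Mb) (Simplex 5) := by
  intro x
  rw [mem_MA]
  constructor
  · rintro ⟨a1, a2, a3, a4, a5⟩
    have key := six hq0 hq1 (1 - x 0 - x 1 - x 2) (x 0 + x 2 + x 4) (x 1 + x 2 + x 3)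
      (1/2 + 1/100 - 1/100 * x 0 - (1/100 + q) * x 1 - 1/100 * x 3 - (1/100 + q) * x 4)
      (by push_cast; linarith) (by push_cast; linarith) (by push_cast; linarith)
      (by push_cast; linarith) (by push_cast; linarith)
    rcases key with ⟨k1, k2, k3, k4⟩ | ⟨k1, k2, k3, k4⟩ | ⟨k1, k2, k3, k4⟩ | ⟨k1, k2, k3, k4⟩ |
      ⟨k1, k2, k3, k4⟩ | ⟨k1, k2, k3, k4⟩
    · obtain ⟨m1, m2⟩ := irr hq (-(x 0 + x 1 + x 3 + x 4)) (-(x 1 + x 4)) (by push_cast; linarith)
      left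
      funext j
      fin_cases j <;> simp <;> omega
    · obtain ⟨m1, m2⟩ := irr hq (1 - (x 0 + x 1 + x 3 + x 4)) (-(x 1 + x 4))
        (by push_cast; linarith)
      apply simplex_mem x 0
      intro j
      fin_cases j <;> simp <;> omega
    · obtain ⟨m1, m2⟩ := irr hq (1 - (x 0 + x 1 + x 3 + x 4)) (1 - (x 1 + x 4))
        (by push_cast; linarith)
      apply simplex_mem x 1
      intro j
      fin_cases j <;> simp <;> omega
    · obtain ⟨m1, m2⟩ := irr hq (-(x 0 + x 1 + x 3 + x 4)) (-(x 1 + x 4)) (by push_cast; linarith)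
      apply simplex_mem x 2
      intro j
      fin_cases j <;> simp <;> omega
    · obtain ⟨m1, m2⟩ := irr hq (1 - (x 0 + x 1 + x 3 + x 4)) (-(x 1 + x 4))
        (by push_cast; linarith)
      apply simplex_mem x 3
      intro j
      fin_cases j <;> simp <;> omega
    · obtain ⟨m1, m2⟩ := irr hq (1 - (x 0 + x 1 + x 3 + x 4)) (1 - (x 1 + x 4))
        (by push_cast; linarith)
      apply simplex_mem x 4
      intro j
      fin_cases j <;> simp <;> omega
  · rintro (h | ⟨i, h⟩)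
    · subst h
      simp
      norm_num
    · subst h
      fin_cases i <;> simp <;> (try norm_num) <;> (repeat' apply And.intro) <;>
        (try linarith)

/-- Every subfield of `ℝ` with an irrational element has one in `(0, 1/100)`. -/
lemma small_irr (F : Subfield ℝ) (t : ℝ) (ht : t ∈ F) (hi : Irrational t) :
    ∃ q ∈ F, Irrational q ∧ 0 < q ∧ q < 1 / 100 := by
  refine ⟨(t - ⌊t⌋) / 100, ?_, ?_, ?_, ?_⟩
  · have h1 : ((⌊t⌋ : ℤ) : ℝ) ∈ F := intCast_mem F _
    have h2 : ((100 : ℕ) : ℝ) ∈ F := natCast_mem F 100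
    have h3 := div_mem (sub_mem ht h1) h2
    simpa using h3
  · have h := (hi.sub_intCast ⌊t⌋).div_natCast (m := 100) (by norm_num)
    simpa using h
  · have h := Int.floor_le t
    have h' : (⌊t⌋ : ℝ) ≠ t := fun e => hi ⟨⌊t⌋, by exact_mod_cast e⟩
    have : (⌊t⌋ : ℝ) < t := lt_of_le_of_ne h h'
    have : 0 < t - ⌊t⌋ := by linarith
    positivity
  · have h := Int.lt_floor_add_one t
    linarith

lemma MA_mem (F : Subfield ℝ) {q : ℝ} (hq : q ∈ F) (i j : Fin 5) : MA q i j ∈ F := by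
  have h1 : (1 : ℝ) ∈ F := one_mem F
  have h2 : (2 : ℝ) ∈ F := by simpa using natCast_mem F 2
  have h3 : (3 : ℝ) ∈ F := by simpa using natCast_mem F 3
  have h4 : (4 : ℝ) ∈ F := by simpa using natCast_mem F 4
  have h100 : (100 : ℝ) ∈ F := by simpa using natCast_mem F 100
  fin_cases i <;> fin_cases j <;> simp only [MA] <;>
    simp <;> (try exact zero_mem F) <;>
    (repeat' first
      | assumption
      | apply add_mem
      | apply sub_mem
      | apply neg_mem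
      | apply mul_mem
      | apply div_mem
      | apply inv_mem)

lemma Mb_mem (F : Subfield ℝ) (i : Fin 5) : Mb i ∈ F := by
  have h1 : (1 : ℝ) ∈ F := one_mem F
  have h2 : (2 : ℝ) ∈ F := by simpa using natCast_mem F 2
  have h3 : (3 : ℝ) ∈ F := by simpa using natCast_mem F 3
  have h4 : (4 : ℝ) ∈ F := by simpa using natCast_mem F 4
  have h100 : (100 : ℝ) ∈ F := by simpa using natCast_mem F 100
  fin_cases i <;> simp only [Mb] <;>
    simp <;> (try exact zero_mem F) <;>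
    (repeat' first
      | assumption
      | apply add_mem
      | apply sub_mem
      | apply neg_mem
      | apply mul_mem
      | apply div_mem
      | apply inv_mem)

lemma upper (F : Subfield ℝ) (t : ℝ) (ht : t ∈ F) (hi : Irrational t) :
    ∃ (A : Matrix (Fin 5) (Fin 5) ℝ) (b : Fin 5 → ℝ),
      (∀ i j, A i j ∈ F) ∧ (∀ i, b i ∈ F) ∧ IsRelaxation (Poly A b) (Simplex 5) := by
  obtain ⟨q, hq, hi, h0, h1⟩ := small_irr F t ht hi
  exact ⟨MA q, Mb, MA_mem F hq, Mb_mem F, relax hi h0 h1⟩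


/-! ### Lower bound: a combinatorial lemma on six columns -/

section Columns

variable {P : Fin 4 → Fin 6 → ℝ}

/-- Column `e` is supported on the rows `a, b`. -/
def Sup (P : Fin 4 → Fin 6 → ℝ) (a b : Fin 4) (e : Fin 6) : Prop :=
  ∀ i, i ≠ a → i ≠ b → P i e = 0

/-- No column is dominated by the sum of two others. -/
def NoTriple (P : Fin 4 → Fin 6 → ℝ) : Prop :=
  ∀ x y m : Fin 6, x ≠ y → x ≠ m → y ≠ m → ¬ ∀ i, P i m ≤ P i x + P i y

lemma Sup.symm {a b : Fin 4} {e : Fin 6} (h : Sup P a b e) : Sup P b a e :=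
  fun i h1 h2 => h i h2 h1

lemma trip (h0 : ∀ i e, 0 ≤ P i e) (H : NoTriple P) {a b : Fin 4} {x y m : Fin 6}
    (hxy : x ≠ y) (hxm : x ≠ m) (hym : y ≠ m) (hm : Sup P a b m)
    (ha : P a m ≤ P a x + P a y) (hb : P b m ≤ P b x + P b y) : False := by
  refine H x y m hxy hxm hym (fun i => ?_)
  by_cases h1 : i = a
  · rw [h1]; exact ha
  · by_cases h2 : i = b
    · rw [h2]; exact hb
    · rw [hm i h1 h2]
      exact add_nonneg (h0 i x) (h0 i y)

lemma third (e f : Fin 6) : ∃ g : Fin 6, g ≠ e ∧ g ≠ f := by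
  revert e f; decide

lemma anti (h0 : ∀ i e, 0 ≤ P i e) (H : NoTriple P) {a b : Fin 4} {e f : Fin 6} (hef : e ≠ f)
    (he : Sup P a b e) (hf : Sup P a b f) :
    (P a f < P a e ∧ P b e < P b f) ∨ (P a e < P a f ∧ P b f < P b e) := by
  obtain ⟨g, hg1, hg2⟩ := third e f
  have t1 := trip h0 H (a := a) (b := b) (x := g) (y := e) (m := f) hg1 hg2 hef hf
  have t2 := trip h0 H (a := a) (b := b) (x := g) (y := f) (m := e) hg2 hg1 hef.symm he
  have g1 := h0 a g
  have g2 := h0 b g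
  by_contra hcon
  push Not at hcon
  obtain ⟨c1, c2⟩ := hcon
  rcases lt_trichotomy (P a e) (P a f) with h | h | h
  · exact t2 (by linarith) (by linarith [c2 h])
  · rcases le_total (P b e) (P b f) with h' | h'
    · exact t2 (by linarith) (by linarith)
    · exact t1 (by linarith) (by linarith)
  · exact t1 (by linarith) (by linarith [c1 h])

lemma three (h0 : ∀ i e, 0 ≤ P i e) (H : NoTriple P) {a b : Fin 4} {e f g : Fin 6}
    (hef : e ≠ f) (heg : e ≠ g) (hfg : f ≠ g) (he : Sup P a b e) (hf : Sup P a b f)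
    (hg : Sup P a b g) : False := by
  have a1 := h0 a e
  have a2 := h0 a f
  have a3 := h0 a g
  have b1 := h0 b e
  have b2 := h0 b f
  have b3 := h0 b g
  have te := trip h0 H (a := a) (b := b) (x := f) (y := g) (m := e) hfg hef.symm heg.symm he
  have tf := trip h0 H (a := a) (b := b) (x := e) (y := g) (m := f) heg hef hfg.symm hf
  have tg := trip h0 H (a := a) (b := b) (x := e) (y := f) (m := g) hef heg hfg hg
  rcases anti h0 H hef he hf with ⟨x1, x2⟩ | ⟨x1, x2⟩ <;>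
  rcases anti h0 H hfg hf hg with ⟨y1, y2⟩ | ⟨y1, y2⟩ <;>
  rcases anti h0 H heg he hg with ⟨z1, z2⟩ | ⟨z1, z2⟩ <;>
  first
  | (exfalso; linarith)
  | exact te (by linarith) (by linarith)
  | exact tf (by linarith) (by linarith)
  | exact tg (by linarith) (by linarith)

lemma adj' (h0 : ∀ i e, 0 ≤ P i e) (H : NoTriple P) {a b c : Fin 4} {e e' f f' : Fin 6}
    (h1 : e ≠ e') (h2 : f ≠ f') (h3 : e ≠ f) (h4 : e ≠ f') (h5 : e' ≠ f) (h6 : e' ≠ f')
    (he : Sup P a b e) (hf : Sup P a c f)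
    (o1 : P a e' < P a e) (o2 : P b e < P b e') (o3 : P a f' < P a f) (o4 : P c f < P c f') :
    False := by
  have t1 := trip h0 H (a := a) (b := c) (x := e) (y := f') (m := f) h4 h3 h2.symm hf
  have t2 := trip h0 H (a := a) (b := b) (x := f) (y := e') (m := e) h5.symm h3.symm h1.symm he
  have a1 := h0 a e'
  have a2 := h0 a f'
  have a3 := h0 c e
  have a4 := h0 b f
  rcases le_total (P a f - P a f') (P a e - P a e') with h | h
  · exact t1 (by linarith) (by linarith)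
  · exact t2 (by linarith) (by linarith)

lemma adj (h0 : ∀ i e, 0 ≤ P i e) (H : NoTriple P) {a b c : Fin 4} {e e' f f' : Fin 6}
    (h1 : e ≠ e') (h2 : f ≠ f') (h3 : e ≠ f) (h4 : e ≠ f') (h5 : e' ≠ f) (h6 : e' ≠ f')
    (he : Sup P a b e) (he' : Sup P a b e') (hf : Sup P a c f) (hf' : Sup P a c f') : False := by
  rcases anti h0 H h1 he he' with ⟨x1, x2⟩ | ⟨x1, x2⟩ <;>
  rcases anti h0 H h2 hf hf' with ⟨y1, y2⟩ | ⟨y1, y2⟩
  · exact adj' h0 H h1 h2 h3 h4 h5 h6 he hf x1 x2 y1 y2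
  · exact adj' h0 H h1 h2.symm h4 h3 h6 h5 he hf' x1 x2 y1 y2
  · exact adj' h0 H h1.symm h2 h5 h6 h3 h4 he' hf x1 x2 y1 y2
  · exact adj' h0 H h1.symm h2.symm h6 h5 h4 h3 he' hf' x1 x2 y1 y2

lemma opp' (h0 : ∀ i e, 0 ≤ P i e) (H : NoTriple P) {a b c d : Fin 4} {e e' f f' g : Fin 6}
    (h1 : e ≠ e') (h2 : f ≠ f') (h4 : e ≠ f') (k1 : e ≠ g) (k2 : e' ≠ g)
    (k3 : f ≠ g) (k4 : f' ≠ g)
    (he : Sup P a c e) (hf' : Sup P b d f') (hg : Sup P a d g)
    (o1 : P a e' < P a e) (o2 : P c e < P c e') (o3 : P b f' < P b f) (o4 : P d f < P d f') :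
    False := by
  have t7 := trip h0 H (a := a) (b := c) (x := e') (y := g) (m := e) k2 h1.symm k1.symm he
  have t10 := trip h0 H (a := b) (b := d) (x := f) (y := g) (m := f') k3 h2 k4.symm hf'
  have t5 := trip h0 H (a := a) (b := d) (x := e) (y := f') (m := g) h4 k1 k4 hg
  have a1 := h0 c g
  have a2 := h0 b g
  have a3 := h0 a e'
  have a4 := h0 a f'
  have a5 := h0 d e
  have a6 := h0 d f
  by_cases q1 : P a e ≤ P a e' + P a g
  · exact t7 q1 (by linarith)
  · by_cases q2 : P d f' ≤ P d f + P d g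
    · exact t10 (by linarith) q2
    · push Not at q1 q2
      exact t5 (by linarith) (by linarith)

lemma opp (h0 : ∀ i e, 0 ≤ P i e) (H : NoTriple P) {a b c d : Fin 4} {e e' f f' g : Fin 6}
    (h1 : e ≠ e') (h2 : f ≠ f') (h3 : e ≠ f) (h4 : e ≠ f') (h5 : e' ≠ f) (h6 : e' ≠ f')
    (k1 : e ≠ g) (k2 : e' ≠ g) (k3 : f ≠ g) (k4 : f' ≠ g)
    (he : Sup P a c e) (he' : Sup P a c e') (hf : Sup P b d f) (hf' : Sup P b d f')
    (hg : Sup P a d g) : False := by
  rcases anti h0 H h1 he he' with ⟨x1, x2⟩ | ⟨x1, x2⟩ <;>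
  rcases anti h0 H h2 hf hf' with ⟨y1, y2⟩ | ⟨y1, y2⟩
  · exact opp' h0 H h1 h2 h4 k1 k2 k3 k4 he hf' hg x1 x2 y1 y2
  · exact opp' h0 H h1 h2.symm h3 k1 k2 k4 k3 he hf hg x1 x2 y1 y2
  · exact opp' h0 H h1.symm h2 h6 k2 k1 k3 k4 he' hf' hg x1 x2 y1 y2
  · exact opp' h0 H h1.symm h2.symm h5 k2 k1 k4 k3 he' hf hg x1 x2 y1 y2

/-- Six nonnegative columns, each with a zero in rows `0, 1` and a zero in rows `2, 3`: some
column is dominated by the sum of two others. -/
lemma columns (h0 : ∀ i e, 0 ≤ P i e) (h01 : ∀ e, P 0 e = 0 ∨ P 1 e = 0)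
    (h23 : ∀ e, P 2 e = 0 ∨ P 3 e = 0) : ¬ NoTriple P := by
  intro H
  have hQ : ∀ e, ∃ c : Fin 4, (c = 0 ∧ Sup P 0 2 e) ∨ (c = 1 ∧ Sup P 0 3 e) ∨
      (c = 2 ∧ Sup P 1 3 e) ∨ (c = 3 ∧ Sup P 1 2 e) := by
    intro e
    rcases h01 e with h | h <;> rcases h23 e with h' | h'
    · exact ⟨2, Or.inr (Or.inr (Or.inl ⟨rfl, by intro i; fin_cases i <;> simp_all⟩))⟩
    · exact ⟨3, Or.inr (Or.inr (Or.inr ⟨rfl, by intro i; fin_cases i <;> simp_all⟩))⟩
    · exact ⟨1, Or.inr (Or.inl ⟨rfl, by intro i; fin_cases i <;> simp_all⟩)⟩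
    · exact ⟨0, Or.inl ⟨rfl, by intro i; fin_cases i <;> simp_all⟩⟩
  choose Q hQ using hQ
  have q0 : ∀ e, Q e = 0 → Sup P 0 2 e := by
    intro e h
    have := hQ e
    rw [h] at this
    simpa using this
  have q1 : ∀ e, Q e = 1 → Sup P 0 3 e := by
    intro e h
    have := hQ e
    rw [h] at this
    simpa using this
  have q2 : ∀ e, Q e = 2 → Sup P 1 3 e := by
    intro e h
    have := hQ e
    rw [h] at this
    simpa using this
  have q3 : ∀ e, Q e = 3 → Sup P 1 2 e := by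
    intro e h
    have := hQ e
    rw [h] at this
    simpa using this
  set n : Fin 4 → ℕ := fun c => (Finset.univ.filter (fun e => Q e = c)).card with hn
  have tot : n 0 + n 1 + n 2 + n 3 = 6 := by
    have := Finset.card_eq_sum_card_fiberwise (s := (Finset.univ : Finset (Fin 6)))
      (t := (Finset.univ : Finset (Fin 4))) (f := Q) (fun _ _ => Finset.mem_univ _)
    rw [Fin.sum_univ_four] at this
    simpa [hn] using this.symm
  have two : ∀ c, 2 ≤ n c → ∃ e f, e ≠ f ∧ Q e = c ∧ Q f = c := by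
    intro c h
    obtain ⟨e, he, f, hf, hef⟩ := Finset.one_lt_card.1 h
    simp only [Finset.mem_filter, Finset.mem_univ, true_and] at he hf
    exact ⟨e, f, hef, he, hf⟩
  have one : ∀ c, 1 ≤ n c → ∃ e, Q e = c := by
    intro c h
    obtain ⟨e, he⟩ := Finset.card_pos.1 h
    simp only [Finset.mem_filter, Finset.mem_univ, true_and] at he
    exact ⟨e, he⟩
  have le2 : ∀ c a b, (∀ e, Q e = c → Sup P a b e) → n c ≤ 2 := by
    intro c a b hc
    by_contra h
    push Not at h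
    obtain ⟨e, he, f, hf, g, hg, h1, h2, h3⟩ := Finset.two_lt_card.1 h
    simp only [Finset.mem_filter, Finset.mem_univ, true_and] at he hf hg
    exact three h0 H h1 h2 h3 (hc e he) (hc f hf) (hc g hg)
  have ad : ∀ c c' a b b', c ≠ c' → (∀ e, Q e = c → Sup P a b e) →
      (∀ e, Q e = c' → Sup P a b' e) → ¬ (2 ≤ n c ∧ 2 ≤ n c') := by
    intro c c' a b b' hcc hc hc' ⟨k, k'⟩
    obtain ⟨e, e', h1, he, he'⟩ := two c k
    obtain ⟨f, f', h2, hf, hf'⟩ := two c' k'
    exact adj h0 H h1 h2 (fun h => hcc (by rw [← he, h, hf])) (fun h => hcc (by rw [← he, h, hf']))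
      (fun h => hcc (by rw [← he', h, hf])) (fun h => hcc (by rw [← he', h, hf']))
      (hc e he) (hc e' he') (hc' f hf) (hc' f' hf')
  have op : ∀ c c' c'' a b k l, c ≠ c' → c ≠ c'' → c' ≠ c'' → (∀ e, Q e = c → Sup P a k e) →
      (∀ e, Q e = c' → Sup P b l e) → (∀ e, Q e = c'' → Sup P a l e) →
      ¬ (2 ≤ n c ∧ 2 ≤ n c' ∧ 1 ≤ n c'') := by
    intro c c' c'' a b k l hcc h13 h23' hc hc' hc'' ⟨k1, k2, k3⟩
    obtain ⟨e, e', h1, he, he'⟩ := two c k1
    obtain ⟨f, f', h2, hf, hf'⟩ := two c' k2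
    obtain ⟨g, hg⟩ := one c'' k3
    exact opp h0 H h1 h2 (fun h => hcc (by rw [← he, h, hf])) (fun h => hcc (by rw [← he, h, hf']))
      (fun h => hcc (by rw [← he', h, hf])) (fun h => hcc (by rw [← he', h, hf']))
      (fun h => h13 (by rw [← he, h, hg])) (fun h => h13 (by rw [← he', h, hg]))
      (fun h => h23' (by rw [← hf, h, hg])) (fun h => h23' (by rw [← hf', h, hg]))
      (hc e he) (hc e' he') (hc' f hf) (hc' f' hf') (hc'' g hg)
  have s0 := le2 0 0 2 q0
  have s1 := le2 1 0 3 q1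
  have s2 := le2 2 1 3 q2
  have s3 := le2 3 1 2 q3
  have r01 := ad 0 1 0 2 3 (by decide) q0 q1
  have r12 := ad 1 2 3 0 1 (by decide) (fun e h => (q1 e h).symm) (fun e h => (q2 e h).symm)
  have r23 := ad 2 3 1 3 2 (by decide) q2 q3
  have r30 := ad 3 0 2 1 0 (by decide) (fun e h => (q3 e h).symm) (fun e h => (q0 e h).symm)
  have w0 := op 0 2 1 0 1 2 3 (by decide) (by decide) (by decide) q0 q2 q1
  have w1 := op 3 1 2 1 0 2 3 (by decide) (by decide) (by decide) q3 q1 q2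
  omega

end Columns


/-! ### Lower bound: small integer vectors -/

/-- Value of the `i`-th linear form. -/
def Lf (A : Matrix (Fin 4) (Fin 5) ℝ) (i : Fin 4) (x : Fin 5 → ℤ) : ℝ := ∑ j, A i j * (x j : ℝ)

lemma Lf_sub (A : Matrix (Fin 4) (Fin 5) ℝ) (i : Fin 4) (x y : Fin 5 → ℤ) :
    Lf A i (x - y) = Lf A i x - Lf A i y := by
  unfold Lf
  rw [← Finset.sum_sub_distrib]
  refine Finset.sum_congr rfl (fun j _ => ?_)
  simp only [Pi.sub_apply]
  push_cast
  ring

lemma Lf_add (A : Matrix (Fin 4) (Fin 5) ℝ) (i : Fin 4) (x y : Fin 5 → ℤ) :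
    Lf A i (x + y) = Lf A i x + Lf A i y := by
  unfold Lf
  rw [← Finset.sum_add_distrib]
  refine Finset.sum_congr rfl (fun j _ => ?_)
  simp only [Pi.add_apply]
  push_cast
  ring

/-- Dirichlet: four real linear forms in five integer variables take simultaneously small
values. -/
lemma dirichlet (A : Matrix (Fin 4) (Fin 5) ℝ) {ε : ℝ} (hε : 0 < ε) :
    ∃ v : Fin 5 → ℤ, v ≠ 0 ∧ ∀ i, |Lf A i v| < ε := by
  obtain ⟨M, hM⟩ : ∃ M : ℕ, ∀ i, (∑ j, |A i j|) / ε ≤ M := by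
    obtain ⟨M, hM⟩ := exists_nat_ge (∑ i, (∑ j, |A i j|) / ε)
    refine ⟨M, fun i => le_trans ?_ hM⟩
    exact Finset.single_le_sum (f := fun i => (∑ j, |A i j|) / ε)
      (fun i _ => div_nonneg (Finset.sum_nonneg (fun j _ => abs_nonneg _)) hε.le)
      (Finset.mem_univ i)
  set N : ℕ := (2 * M + 1) ^ 4 with hN
  have hN1 : 1 ≤ N := Nat.one_le_pow _ _ (by omega)
  let s : Finset (Fin 5 → ℕ) := Fintype.piFinset (fun _ : Fin 5 => Finset.range (N + 1))
  let t : Finset (Fin 4 → ℤ) :=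
    Fintype.piFinset (fun _ : Fin 4 => Finset.Icc (-((M * N : ℕ) : ℤ)) ((M * N : ℕ) : ℤ))
  let g : (Fin 5 → ℕ) → (Fin 4 → ℤ) := fun x i => ⌊(∑ j, A i j * (x j : ℝ)) / ε⌋
  have hcard : t.card < s.card := by
    have h1 : s.card = (N + 1) ^ 5 := by
      simp [s, Fintype.card_piFinset]
    have h2 : t.card = (2 * (M * N) + 1) ^ 4 := by
      simp only [t, Fintype.card_piFinset, Int.card_Icc, Finset.prod_const, Finset.card_univ,
        Fintype.card_fin]
      congr 1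
      omega
    rw [h1, h2]
    calc (2 * (M * N) + 1) ^ 4 ≤ ((2 * M + 1) * N) ^ 4 := by
          apply Nat.pow_le_pow_left
          nlinarith
      _ = N * N ^ 4 := by rw [mul_pow, ← hN]
      _ = N ^ 5 := by ring
      _ < (N + 1) ^ 5 := Nat.pow_lt_pow_left (by omega) (by norm_num)
  have hmaps : ∀ x ∈ s, g x ∈ t := by
    intro x hx
    simp only [s, Fintype.mem_piFinset, Finset.mem_range] at hx
    simp only [t, Fintype.mem_piFinset, Finset.mem_Icc]
    intro i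
    have habs : |(∑ j, A i j * (x j : ℝ)) / ε| ≤ M * N := by
      rw [abs_div, abs_of_pos hε]
      have h1 : |∑ j, A i j * (x j : ℝ)| ≤ (∑ j, |A i j|) * N := by
        refine (Finset.abs_sum_le_sum_abs _ _).trans ?_
        rw [Finset.sum_mul]
        refine Finset.sum_le_sum (fun j _ => ?_)
        rw [abs_mul, abs_of_nonneg (Nat.cast_nonneg (x j) : (0 : ℝ) ≤ x j)]
        refine mul_le_mul_of_nonneg_left ?_ (abs_nonneg _)
        exact_mod_cast Nat.lt_succ_iff.1 (hx j)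
      calc |∑ j, A i j * (x j : ℝ)| / ε ≤ ((∑ j, |A i j|) * N) / ε :=
            div_le_div_of_nonneg_right h1 hε.le
        _ = ((∑ j, |A i j|) / ε) * N := by ring
        _ ≤ M * N := mul_le_mul_of_nonneg_right (hM i) (Nat.cast_nonneg _)
    rw [abs_le] at habs
    constructor
    · rw [Int.le_floor]
      push_cast
      linarith [habs.1]
    · have h := Int.floor_le ((∑ j, A i j * (x j : ℝ)) / ε)
      have h' : ((g x i : ℤ) : ℝ) ≤ (((M * N : ℕ) : ℤ) : ℝ) := by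
        push_cast
        exact h.trans habs.2
      exact_mod_cast h'
  obtain ⟨x, hx, y, hy, hxy, hfg⟩ := Finset.exists_ne_map_eq_of_card_lt_of_maps_to hcard hmaps
  refine ⟨(fun j => (x j : ℤ)) - (fun j => (y j : ℤ)), ?_, ?_⟩
  · intro h
    apply hxy
    funext j
    have := congrFun h j
    simp only [Pi.sub_apply, Pi.zero_apply] at this
    omega
  · intro i
    have h := congrFun hfg i
    have h2 := Int.abs_sub_lt_one_of_floor_eq_floor h
    rw [Lf_sub]
    unfold Lf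
    rw [← sub_div, abs_div, abs_of_pos hε, div_lt_one hε] at h2
    simpa using h2


/-! ### Lower bound: assembling -/

/-- The six points of `Δ₅`. -/
def E (e : Fin 6) : Fin 5 → ℤ := fun j => if (e : ℕ) = (j : ℕ) + 1 then 1 else 0

lemma E_mem (e : Fin 6) : E e ∈ Simplex 5 := by
  refine Fin.cases ?_ (fun i => ?_) e
  · left
    funext j
    simp [E]
  · right
    refine ⟨i, ?_⟩
    funext j
    fin_cases i <;> fin_cases j <;> simp [E]

lemma mem_E {x : Fin 5 → ℤ} (h : x ∈ Simplex 5) : ∃ e, x = E e := by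
  rcases h with h | ⟨i, h⟩
  · refine ⟨0, ?_⟩
    rw [h]
    funext j
    simp [E]
  · refine ⟨i.succ, ?_⟩
    rw [h]
    funext j
    fin_cases i <;> fin_cases j <;> simp [E]

lemma E3 : ∀ x y m e : Fin 6, x ≠ y → x ≠ m → y ≠ m → E x + E y - E m ≠ E e := by
  decide +kernel

lemma E2 : ∀ x y e : Fin 6, x ≠ y → E x + (E x - E y) ≠ E e := by
  decide +kernel

lemma cover : ∀ a b c d i : Fin 4, a ≠ b → a ≠ c → a ≠ d → b ≠ c → b ≠ d → c ≠ d →
    i = a ∨ i = b ∨ i = c ∨ i = d := by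
  decide

lemma lower4 (A : Matrix (Fin 4) (Fin 5) ℝ) (b : Fin 4 → ℝ) :
    ¬ IsRelaxation (Poly A b) (Simplex 5) := by
  intro hrel
  have hmem : ∀ x, x ∈ Simplex 5 ↔ ∀ i, 0 ≤ b i - Lf A i x := by
    intro x
    rw [← hrel x]
    exact forall_congr' (fun i => by unfold Lf; exact sub_nonneg.symm)
  have hE : ∀ i e, 0 ≤ b i - Lf A i (E e) := fun i e => (hmem _).1 (E_mem e) i
  have hdiff : ∀ e f, e ≠ f → ∃ i, Lf A i (E e - E f) ≠ 0 := by
    intro e f hef
    by_contra hcon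
    push Not at hcon
    have : E e + (E e - E f) ∈ Simplex 5 := by
      rw [hmem]
      intro i
      rw [Lf_add, hcon i, add_zero]
      exact hE i e
    obtain ⟨g, hg⟩ := mem_E this
    exact E2 e f g hef hg
  -- a small positive bound
  obtain ⟨ε, hε, hs, hd⟩ : ∃ ε : ℝ, 0 < ε ∧ (∀ i e, 0 < b i - Lf A i (E e) →
      ε ≤ b i - Lf A i (E e)) ∧ (∀ i e f, Lf A i (E e - E f) ≠ 0 →
      ε ≤ |Lf A i (E e - E f)|) := by
    let g : (Fin 4 × Fin 6) ⊕ (Fin 4 × Fin 6 × Fin 6) → ℝ := fun k => match k with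
      | Sum.inl (i, e) => if 0 < b i - Lf A i (E e) then b i - Lf A i (E e) else 1
      | Sum.inr (i, e, f) => if Lf A i (E e - E f) ≠ 0 then |Lf A i (E e - E f)| else 1
    have hg : ∀ k, 0 < g k := by
      rintro (⟨i, e⟩ | ⟨i, e, f⟩)
      · simp only [g]
        split_ifs with h
        · exact h
        · norm_num
      · simp only [g]
        split_ifs with h
        · exact abs_pos.2 h
        · norm_num
    obtain ⟨k0, hk0⟩ := Finite.exists_min g
    refine ⟨g k0, hg k0, ?_, ?_⟩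
    · intro i e h
      have := hk0 (Sum.inl (i, e))
      simp only [g] at this ⊢
      rwa [if_pos h] at this
    · intro i e f h
      have := hk0 (Sum.inr (i, e, f))
      simp only [g] at this ⊢
      rwa [if_pos h] at this
  have key : ∀ v : Fin 5 → ℤ, v ≠ 0 → (∀ i, |Lf A i v| < ε) →
      ∀ e, ∃ i, 0 < Lf A i v ∧ b i - Lf A i (E e) = 0 := by
    intro v hv hsm e
    have hnot : E e + v ∉ Simplex 5 := by
      intro hin
      obtain ⟨f, hf⟩ := mem_E hin
      have hvf : v = E f - E e := by rw [← hf]; abel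
      have hfe : f ≠ e := by
        rintro rfl
        apply hv
        rw [hvf]
        abel
      obtain ⟨i, hi⟩ := hdiff f e hfe
      have h1 := hd i f e hi
      have h2 := hsm i
      rw [hvf] at h2
      linarith
    rw [hmem] at hnot
    push Not at hnot
    obtain ⟨i, hi⟩ := hnot
    rw [Lf_add] at hi
    have h1 := hE i e
    refine ⟨i, by linarith, ?_⟩
    by_contra h2
    have h3 : 0 < b i - Lf A i (E e) := lt_of_le_of_ne h1 (Ne.symm h2)
    have h4 := hs i e h3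
    have h5 := (le_abs_self (Lf A i v)).trans_lt (hsm i)
    linarith
  obtain ⟨v, hv, hsm⟩ := dirichlet A hε
  have kp := key v hv hsm
  have hneg : ∀ i, Lf A i (-v) = - Lf A i v := by
    intro i
    have h := Lf_add A i v (-v)
    rw [add_neg_cancel] at h
    have h0 : Lf A i 0 = 0 := by simp [Lf]
    rw [h0] at h
    linarith
  have kn := key (-v) (neg_ne_zero.2 hv) (fun i => by rw [hneg, abs_neg]; exact hsm i)
  -- a form tight at all six points vanishes
  have flat : ∀ i, (∀ e, b i - Lf A i (E e) = 0) → ∀ w, Lf A i w = 0 := by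
    intro i h w
    have h0 := h 0
    have e0 : Lf A i (E 0) = 0 := by simp [Lf, E]
    have hA : ∀ j, A i j = 0 := by
      intro j
      have h1 := h j.succ
      have : Lf A i (E j.succ) = A i j := by
        unfold Lf E
        rw [Finset.sum_eq_single j]
        · simp
        · intro k _ hk
          have hne : (j : ℕ) ≠ (k : ℕ) := fun h => hk (Fin.ext h.symm)
          simp [hne]
        · simp
      linarith
    simp [Lf, hA]
  have two : ∀ u : Fin 5 → ℤ, (∀ e, ∃ i, 0 < Lf A i u ∧ b i - Lf A i (E e) = 0) →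
      ∃ i j, i ≠ j ∧ 0 < Lf A i u ∧ 0 < Lf A j u := by
    intro u hu
    obtain ⟨i, hi, _⟩ := hu 0
    by_contra hcon
    push Not at hcon
    have : ∀ e, b i - Lf A i (E e) = 0 := by
      intro e
      obtain ⟨j, hj, hje⟩ := hu e
      by_cases hij : i = j
      · rw [hij]; exact hje
      · exact absurd hj (not_lt.2 (hcon i j hij hi))
    rw [flat i this u] at hi
    exact lt_irrefl _ hi
  obtain ⟨i1, i2, h12, p1, p2⟩ := two v kp
  obtain ⟨j1, j2, h34, n1, n2⟩ := two (-v) kn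
  rw [hneg] at n1 n2
  have d1 : i1 ≠ j1 := by rintro rfl; linarith
  have d2 : i1 ≠ j2 := by rintro rfl; linarith
  have d3 : i2 ≠ j1 := by rintro rfl; linarith
  have d4 : i2 ≠ j2 := by rintro rfl; linarith
  have cov := fun i => cover i1 i2 j1 j2 i h12 d1 d2 d3 d4 h34
  let σ : Fin 4 → Fin 4 := ![i1, i2, j1, j2]
  let P : Fin 4 → Fin 6 → ℝ := fun k e => b (σ k) - Lf A (σ k) (E e)
  refine columns (P := P) (fun k e => hE _ e) ?_ ?_ ?_
  · intro e
    obtain ⟨i, hi, hie⟩ := kp e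
    rcases cov i with rfl | rfl | rfl | rfl
    · left; exact hie
    · right; exact hie
    · exfalso; linarith
    · exfalso; linarith
  · intro e
    obtain ⟨i, hi, hie⟩ := kn e
    rw [hneg] at hi
    rcases cov i with rfl | rfl | rfl | rfl
    · exfalso; linarith
    · exfalso; linarith
    · left; exact hie
    · right; exact hie
  · intro x y m hxy hxm hym hall
    have hin : E x + E y - E m ∈ Simplex 5 := by
      rw [hmem]
      intro i
      rw [Lf_sub, Lf_add]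
      have hi : b i - Lf A i (E m) ≤ (b i - Lf A i (E x)) + (b i - Lf A i (E y)) := by
        rcases cov i with rfl | rfl | rfl | rfl
        · exact hall 0
        · exact hall 1
        · exact hall 2
        · exact hall 3
      linarith
    obtain ⟨e, he⟩ := mem_E hin
    exact E3 x y m e hxy hxm hym he

lemma lower {m : ℕ} (hm : m ≤ 4) (A : Matrix (Fin m) (Fin 5) ℝ) (b : Fin m → ℝ) :
    ¬ IsRelaxation (Poly A b) (Simplex 5) := by
  intro h
  let A' : Matrix (Fin 4) (Fin 5) ℝ := fun i j => if h : (i : ℕ) < m then A ⟨i, h⟩ j else 0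
  let b' : Fin 4 → ℝ := fun i => if h : (i : ℕ) < m then b ⟨i, h⟩ else 0
  have hP : Poly A' b' = Poly A b := by
    ext x
    constructor
    · intro hx i
      have := hx ⟨i, lt_of_lt_of_le i.2 hm⟩
      simpa [A', b'] using this
    · intro hx i
      by_cases hi : (i : ℕ) < m
      · have := hx ⟨i, hi⟩
        simpa [A', b', hi] using this
      · simp [A', b', hi]
  exact lower4 A' b' (by rw [hP]; exact h)

/-- The relaxation complexity of `Δ₅` over any subfield of `ℝ` with an irrational element. -/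
lemma rc_eq (F : Subfield ℝ) (hF : ∃ t ∈ F, Irrational t) : rc F (Simplex 5) = 5 := by
  obtain ⟨t, ht, hi⟩ := hF
  have hne : (5 : ℕ) ∈ {m | ∃ (A : Matrix (Fin m) (Fin 5) ℝ) (b : Fin m → ℝ),
      (∀ i j, A i j ∈ F) ∧ (∀ i, b i ∈ F) ∧ IsRelaxation (Poly A b) (Simplex 5)} :=
    upper F t ht hi
  apply le_antisymm
  · exact Nat.sInf_le hne
  · refine le_csInf ⟨5, hne⟩ ?_
    rintro m ⟨A, b, _, _, h⟩
    by_contra hm
    exact lower (by omega) A b h

lemma quad_irr (F : IntermediateField ℚ ℝ) (hF : Module.finrank ℚ F = 2) :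
    ∃ t ∈ F.toSubfield, Irrational t := by
  by_contra hcon
  push Not at hcon
  have hbot : F = ⊥ := by
    rw [eq_bot_iff]
    intro x hx
    have h := hcon x hx
    unfold Irrational at h
    push Not at h
    obtain ⟨r, hr⟩ := h
    rw [IntermediateField.mem_bot]
    exact ⟨r, by rw [← hr]; simp⟩
  rw [hbot, IntermediateField.finrank_bot] at hF
  omega

/-- **Relaxation complexity of the 5-simplex over real quadratic fields.** -/
theorem result :
    (∀ F : IntermediateField ℚ ℝ, Module.finrank ℚ F = 2 → rc F.toSubfield (Simplex 5) = 5) ∧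
    (∀ F : Subfield ℝ, (∃ t ∈ F, Irrational t) → rc F (Simplex 5) = 5) :=
  ⟨fun F hF => rc_eq _ (quad_irr F hF), rc_eq⟩

end Pool.Agent.Results.MP_83f734_co.QuadraticSimplex
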